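import Pool.Agent.H360R2.RG.Stubs
import Pool.Agent.H403R2.LGLocalA
import Pool.Agent.H403R2.LGLocalB
import Pool.Agent.H503R2.LG.Ker
import Pool.Agent.H793R2.LG.GapTail2

/-! `r`-gaps, task LOCL: many large `k`-gaps in every window (adapted from `LG.LOCAL_of` by helper403,
`Pool/Agent/H403R2/LGLocal.lean`). -/

open Complex Filter Topology Set MeasureTheory

namespace RGap

open SG (hh nn dd dl ord NZ zmult)
open SP (RHs ZZ mu wt Mk Par Eb PS chi qq tt)
open LG (gK gh Zs bk lk fam prs nA yp ae EE Cn QT tm sm sm0 IsQ SF SM)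

namespace LOCLAux

open SP.ManyAux LG.LocAux

/-- lower bound for the difference of the mean values -/
theorem mean_lower (P : Par) (B0 : ℕ) (r : ℝ) (F q s : ℕ → ℝ) (A c δ e1 : ℝ) (k : ℕ)
    (hMLIM : ∀ δ : ℝ, 0 < δ → ∃ T0 : ℝ, 10 ≤ T0 ∧ ∀ T : ℝ, T0 ≤ T →
    ∀ t0 : ℝ, 11 / 10 * T ≤ t0 → t0 ≤ 19 / 10 * T →
    |(∫ t in (T + 2 * Real.log T)..(2 * T - 2 * Real.log T),
        wt t0 (dd P.κ T) t * ‖EES P B0 r F s T t‖ ^ 2) -
      Real.sqrt (2 * Real.pi) * dd P.κ T * SF B0 F q ^ 2| ≤ δ * dd P.κ T ∧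
    |(∫ t in (T + 2 * Real.log T)..(2 * T - 2 * Real.log T),
        wt t0 (dd P.κ T) t * ‖EES P B0 r F s T t‖ ^ 2 * Zs A c T t) -
      Real.sqrt (2 * Real.pi) * dd P.κ T * (SF B0 F q * (c * SF B0 F q -
        4 * r / Real.pi * ∑ m ∈ Finset.Icc 2 B0, s m * (sm P A c m * SM B0 F q m)))| ≤
      δ * dd P.κ T)
    (hSF : 0 < SF B0 F q) (hδ : 0 < δ) (he1 : 0 < e1) (he1' : e1 ≤ 1 / 4)
    (hδe : 2 * e1 * k * SF B0 F q ≤ δ)
    (hst : c * SF B0 F q + 3 * δ ≤ k * SF B0 F q +
        4 * r / Real.pi * ∑ m ∈ Finset.Icc 2 B0, s m * (sm P A c m * SM B0 F q m)) :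
    ∃ T0 : ℝ, 10 ≤ T0 ∧ ∀ T : ℝ, T0 ≤ T → ∀ t0 : ℝ, 11 / 10 * T ≤ t0 → t0 ≤ 19 / 10 * T →
      SF B0 F q * δ * dd P.κ T ≤
      k * (∫ t in (T + 2 * Real.log T)..(2 * T - 2 * Real.log T),
        wt t0 (dd P.κ T) t * ‖EES P B0 r F s T t‖ ^ 2) -
      1 / (1 - 2 * e1) * ∫ t in (T + 2 * Real.log T)..(2 * T - 2 * Real.log T),
        wt t0 (dd P.κ T) t * ‖EES P B0 r F s T t‖ ^ 2 * Zs A c T t := by
  set S := SF B0 F q with hS
  set U := 4 * r / Real.pi * ∑ m ∈ Finset.Icc 2 B0, s m * (sm P A c m * SM B0 F q m) with hU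
  set g := 1 / (1 - 2 * e1) with hg
  have hg0 : 0 < 1 - 2 * e1 := by linarith
  have hg1 : 1 ≤ g := by rw [hg, le_div_iff₀ hg0]; linarith
  have hg2 : g ≤ 2 := by rw [hg, div_le_iff₀ hg0]; linarith
  have hgm : g * (1 - 2 * e1) = 1 := by rw [hg]; field_simp
  set σ := Real.sqrt (2 * Real.pi) with hσ
  have hσ2 : 2 ≤ σ := two_le_sqrt_two_pi
  have hk0 : (0 : ℝ) ≤ k := Nat.cast_nonneg k
  set δ' := S * δ / (k + 2) with hδ'
  have hδ'0 : 0 < δ' := by positivity
  have hδ'1 : (k + 2) * δ' = S * δ := by rw [hδ']; field_simp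
  obtain ⟨T0, hT0, hM⟩ := hMLIM δ' hδ'0
  refine ⟨T0, hT0, fun T hT t0 ht0 ht1 => ?_⟩
  obtain ⟨m1, m2⟩ := hM T hT t0 ht0 ht1
  have hT10 : 10 ≤ T := hT0.trans hT
  have hΔ1 := dd_ge_one (κ := P.κ) (by linarith : 1 ≤ T) P.hκ1
  set Δ := dd P.κ T with hΔ
  have hΔ0 : 0 < Δ := by linarith
  have h4 := (abs_le.mp m1).1
  have h5 := (abs_le.mp m2).2
  have e2 : c * S - U ≤ k * S - 3 * δ := by linarith
  have e3 : g * (c * S - U) ≤ g * (k * S - 3 * δ) := mul_le_mul_of_nonneg_left e2 (by linarith)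
  have e4 : 2 * δ ≤ k * S - g * (k * S - 3 * δ) := by
    have e5 : k * S - g * (k * S - 3 * δ) = g * (3 * δ - 2 * e1 * k * S) := by
      have : k * S = g * (1 - 2 * e1) * (k * S) := by rw [hgm, one_mul]
      calc k * S - g * (k * S - 3 * δ) = g * (1 - 2 * e1) * (k * S) - g * (k * S - 3 * δ) := by
            rw [← this]
        _ = _ := by ring
    rw [e5]
    have e6 : 2 * δ ≤ 3 * δ - 2 * e1 * k * S := by linarith
    nlinarith
  have e7 : 2 * δ ≤ k * S - g * (c * S - U) := by linarith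
  have e8 : S * (2 * δ) ≤ S * (k * S - g * (c * S - U)) := mul_le_mul_of_nonneg_left e7 hSF.le
  have e9 : 2 * (S * (2 * δ)) ≤ σ * (S * (k * S - g * (c * S - U))) :=
    mul_le_mul hσ2 e8 (by positivity) (by linarith)
  have e10 := mul_le_mul_of_nonneg_left e9 hΔ0.le
  have h4' := mul_le_mul_of_nonneg_left h4 hk0
  have h5' := mul_le_mul_of_nonneg_left h5 (by linarith : 0 ≤ g)
  have h6 : (k + g) * (δ' * Δ) ≤ S * δ * Δ := by
    calc (k + g) * (δ' * Δ) ≤ (k + 2) * (δ' * Δ) := by gcongr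
      _ = S * δ * Δ := by rw [← mul_assoc, hδ'1]
  have h7 : 0 < S * δ * Δ := by positivity
  have h8 : Δ * (σ * (S * (k * S - g * (c * S - U)))) =
      k * (σ * Δ * S ^ 2) - g * (σ * Δ * (S * (c * S - U))) := by ring
  rw [h8] at e10
  rw [mul_sub] at h4' h5'
  nlinarith

/-- the pointwise inequality -/
theorem pointwise3 {E g Z e B k : ℝ} (he : 0 < e) (hg : 0 ≤ g) (hZ : 0 ≤ Z)
    (hB : 0 ≤ B) (_hk : 0 ≤ k) (h : k ≤ g * Z ∨ 1 ≤ B) :
    E ^ 2 * (k - g * Z) ≤ e * E ^ 4 + k ^ 2 / (4 * e) * B := by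
  have h1 : 0 ≤ e * E ^ 4 := by positivity
  have h2 : 0 ≤ k ^ 2 / (4 * e) * B := by positivity
  rcases h with h | h
  · have : E ^ 2 * (k - g * Z) ≤ 0 := mul_nonpos_of_nonneg_of_nonpos (by positivity) (by linarith)
    linarith
  · have h3 : E ^ 2 * (k - g * Z) ≤ E ^ 2 * k := by
      have : 0 ≤ E ^ 2 * (g * Z) := by positivity
      nlinarith
    have h4 : E ^ 2 * k ≤ e * E ^ 4 + k ^ 2 / (4 * e) := by
      have h5 : 0 ≤ e * (E ^ 2 - k / (2 * e)) ^ 2 := by positivity
      have h6 : e * (E ^ 2 - k / (2 * e)) ^ 2 = e * E ^ 4 - E ^ 2 * k + k ^ 2 / (4 * e) := by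
        field_simp
        ring
      linarith
    have h7 : k ^ 2 / (4 * e) ≤ k ^ 2 / (4 * e) * B := le_mul_of_one_le_right (by positivity) h
    linarith

theorem EES_cont (P : Par) (B0 : ℕ) (r : ℝ) (F s : ℕ → ℝ) (T : ℝ) :
    Continuous (fun t => EES P B0 r F s T t) := by
  unfold EES
  apply continuous_finsetSum
  intro q _
  fun_prop

/-- the fourth moment of `EES` -/
theorem mom4 (h2 : EESB) (h3 : MKM) (hRH : RHs) (P : Par) (B0 : ℕ) (hB : P.B = 2 * B0) (r : ℝ)
    (hr : 0 < r) (F s : ℕ → ℝ) (hs : IsSgn s) :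
    ∃ C T0 : ℝ, 0 < C ∧ 10 ≤ T0 ∧ ∀ T : ℝ, T0 ≤ T → ∀ t0 : ℝ,
      ∫ t in (T + 2 * Real.log T)..(2 * T - 2 * Real.log T),
        wt t0 (dd P.κ T) t * ‖EES P B0 r F s T t‖ ^ 4 ≤ C * dd P.κ T := by
  obtain ⟨C1, T1, hC1, hT1, hE⟩ := h2 hRH P B0 hB r hr F s hs
  obtain ⟨C2, T2, hC2, hT2, hM⟩ := h3 hRH P.κ P.hκ P.hκ1 (8 * B0)
  obtain ⟨T3, hT3⟩ := (Real.isLittleO_log_id_atTop.bound
    (by norm_num : (0 : ℝ) < 1 / 4)).exists_forall_of_atTop
  refine ⟨C1 ^ 4 * C2, max (max T1 T2) T3, by positivity,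
    hT1.trans ((le_max_left _ _).trans (le_max_left _ _)), fun T hT t0 => ?_⟩
  simp only [max_le_iff] at hT
  obtain ⟨⟨a1, a2⟩, a3⟩ := hT
  have hT10 : 10 ≤ T := hT1.trans a1
  have hTone : 1 ≤ T := by linarith
  have hL0 : 0 < Real.log T := Real.log_pos (by linarith)
  have hLT : 4 * Real.log T ≤ T := by
    have := hT3 T a3
    simp only [id, Real.norm_eq_abs] at this
    rw [abs_of_pos (by linarith : 0 < T)] at this
    have h := le_abs_self (Real.log T)
    linarith
  have hV : T + 2 * Real.log T ≤ 2 * T - 2 * Real.log T := by linarith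
  have hwc : Continuous (wt t0 (dd P.κ T)) := wt_cont _ _
  have hMc : Continuous (fun t => Mk T 1 t) := Mk_cont T 1 hTone
  have hEc := (EES_cont P B0 r F s T).norm
  calc ∫ t in (T + 2 * Real.log T)..(2 * T - 2 * Real.log T),
        wt t0 (dd P.κ T) t * ‖EES P B0 r F s T t‖ ^ 4
      ≤ ∫ t in (T + 2 * Real.log T)..(2 * T - 2 * Real.log T),
        C1 ^ 4 * (wt t0 (dd P.κ T) t * (1 + Mk T 1 t) ^ (8 * B0)) := by
        apply intervalIntegral.integral_mono_on hV
        · exact (hwc.mul (hEc.pow 4)).intervalIntegrable _ _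
        · exact ((hwc.mul ((hMc.const_add 1).pow _)).const_mul _).intervalIntegrable _ _
        · intro t ht
          have b1 := hE T a1 t ht.1 ht.2
          have b2 : 0 ≤ Mk T 1 t := Mk_nonneg T 1 t hTone
          have b3 : ‖EES P B0 r F s T t‖ ^ 4 ≤ (C1 * (1 + Mk T 1 t) ^ (2 * B0)) ^ 4 :=
            pow_le_pow_left₀ (norm_nonneg _) b1 4
          have b4 : (C1 * (1 + Mk T 1 t) ^ (2 * B0)) ^ 4 =
              C1 ^ 4 * (1 + Mk T 1 t) ^ (8 * B0) := by
            rw [mul_pow, ← pow_mul]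
            congr 2
            ring
          calc wt t0 (dd P.κ T) t * ‖EES P B0 r F s T t‖ ^ 4
              ≤ wt t0 (dd P.κ T) t * (C1 ^ 4 * (1 + Mk T 1 t) ^ (8 * B0)) := by
                rw [← b4]
                exact mul_le_mul_of_nonneg_left b3 (wt_nonneg _ _ _)
            _ = _ := by ring
    _ = C1 ^ 4 * ∫ t in (T + 2 * Real.log T)..(2 * T - 2 * Real.log T),
        (wt t0 (dd P.κ T) t * (1 + Mk T 1 t) ^ (8 * B0)) := intervalIntegral.integral_const_mul _ _
    _ ≤ C1 ^ 4 * (C2 * dd P.κ T) := mul_le_mul_of_nonneg_left (hM T a2 t0) (by positivity)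
    _ = C1 ^ 4 * C2 * dd P.κ T := by ring

end LOCLAux

set_option maxHeartbeats 4000000 in
open LOCLAux SP.ManyAux LG.LocAux in
/-- **many large `k`-gaps near every `t0`** -/
theorem LOCL_of (h1 : MLIM) (h2 : EESB) (h3 : MKM) (h4 : ZLOW) (h5 : ORDL) (h6 : PARC) : LOCL := by
  classical
  intro hRH P B0 hB r hr F q s hs hq hSF k c hk hc hstrict
  have hpi := Real.pi_pos
  have hk1 : (1 : ℝ) ≤ k := by exact_mod_cast hk
  have hk0 : (0 : ℝ) < k := by linarith
  obtain ⟨η, δ, A1, hη, _, hδ, hA1, hpar⟩ := h6 P B0 r F q s c (c - k) 1 one_pos hstrict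
  set S0 := SF B0 F q with hS0
  -- the smoothing parameters
  set e1 := min (1 / 4) (δ / (2 * k * S0)) with he1
  have he10 : 0 < e1 := by rw [he1]; exact lt_min (by norm_num) (by positivity)
  have he14 : e1 ≤ 1 / 4 := min_le_left _ _
  have he1S : 2 * e1 * k * S0 ≤ δ := by
    have : e1 ≤ δ / (2 * k * S0) := min_le_right _ _
    rw [le_div_iff₀ (by positivity)] at this
    linarith
  have hc1 : 0 < c + 2 * η := by linarith
  obtain ⟨A0, hA0, hge⟩ := LG.gK_ge (c + η) (c + 2 * η) e1 (by linarith) (by linarith) he10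
  set A := max A0 A1 with hA
  have hApos : 0 < A := lt_of_lt_of_le hA0 (le_max_left _ _)
  have hst := hpar A (c + 2 * η) (le_max_right _ _) (by
    rw [add_sub_cancel_left, abs_of_pos (by positivity)])
  have hge' := hge A (le_max_left _ _)
  have hg0 : ∀ x, 0 ≤ gK A (c + 2 * η) x := fun x => (LG.gK_bounds A (c + 2 * η) x hApos hc1).1
  have hgc : Continuous (gK A (c + 2 * η)) := LG.gK_continuous A (c + 2 * η)
  obtain ⟨TA, hTA, hlow⟩ := mean_lower P B0 r F q s A (c + 2 * η) δ e1 k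
    (h1 hRH P B0 hB r hr F q s hs hq A (c + 2 * η) hApos hc1) hSF hδ
    he10 he14 he1S (by linarith)
  set ρ := S0 * δ with hρ
  have hρ0 : 0 < ρ := by positivity
  obtain ⟨C4, TF, hC4, hTF, hmom⟩ := mom4 h2 h3 hRH P B0 hB r hr F s hs
  obtain ⟨TZ, hTZ, hzlow⟩ := h4 A (c + 2 * η) (c + η) e1 hApos (by linarith) (by linarith) he10
    (by linarith) hge'
  set e := ρ / (4 * C4) with he
  have he0 : 0 < e := by positivity
  have heC : e * C4 = ρ / 4 := by rw [he]; field_simp
  obtain ⟨X, TG, hX, hTG, hG⟩ := LG.GAPTAIL hRH P.κ P.hκ P.hκ1 (ρ * e / (2 * k ^ 3)) (by positivity)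
  have hX0 : 0 < X := by linarith
  obtain ⟨M, hM0, hMe⟩ := exists_M (ρ * e / (6 * k ^ 2)) (by positivity)
  obtain ⟨TN, hTN⟩ := NZ_pos_large
  set g := 1 / (1 - 2 * e1) with hgdef
  have hg1 : 0 < 1 - 2 * e1 := by linarith
  have hgpos : 0 < g := by positivity
  -- largeness of `T`
  set R := Real.pi * (c + η) with hR
  have hR0 : 0 < R := by positivity
  obtain ⟨T1, hT1⟩ := (Real.tendsto_log_atTop.eventually_ge_atTop
    (max 1 (max (6 * k * X) R))).exists_forall_of_atTop
  obtain ⟨T2, hT2⟩ := (Real.isLittleO_log_id_atTop.bound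
    (by norm_num : (0 : ℝ) < 1 / 4)).exists_forall_of_atTop
  refine ⟨η, ρ * e / (6 * k ^ 3 * X), M + 1, max (max (max TA TF) TZ) (max (max TG TN) (max T1 T2)),
    hη, by positivity, by linarith,
    hTA.trans ((le_max_left _ _).trans ((le_max_left _ _).trans (le_max_left _ _))), ?_⟩
  intro T hT t0 ht0 ht1
  simp only [max_le_iff] at hT
  obtain ⟨⟨⟨eA, eF⟩, eZ⟩, ⟨eG, eN⟩, e1', e2'⟩ := hT
  have hT10 : 10 ≤ T := hTA.trans eA
  have hTone : 1 ≤ T := by linarith
  have hTpos : 0 < T := by linarith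
  have hLB := hT1 T e1'
  simp only [max_le_iff] at hLB
  obtain ⟨hL1, hLX, hLR2⟩ := hLB
  obtain ⟨G, hGc, hGn, hGone, hGint⟩ := hG T eG
  have hlowT := hlow T eA t0 ht0 ht1
  have hmomT := hmom T eF t0
  have hzT := hzlow T eZ
  unfold NLarge
  set L := Real.log T with hL
  have hL0 : 0 < L := by linarith
  have hLT : 4 * L ≤ T := by
    have := hT2 T e2'
    simp only [id, Real.norm_eq_abs] at this
    rw [abs_of_pos hTpos] at this
    have h := le_abs_self (Real.log T)
    rw [← hL] at h this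
    linarith
  set Δ := dd P.κ T with hΔ
  have hΔ1 : 1 ≤ Δ := dd_ge_one hTone P.hκ1
  have hΔ0 : 0 < Δ := by linarith
  set V1 := T + 2 * L with hV1
  set V2 := 2 * T - 2 * L with hV2
  have hV : V1 ≤ V2 := by rw [hV1, hV2]; linarith
  set w : ℝ → ℝ := wt t0 Δ with hw
  have hw0 : ∀ t, 0 ≤ w t := fun t => wt_nonneg _ _ _
  have hw1 : ∀ t, w t ≤ 1 := fun t => wt_le_one _ _ _
  have hwc : Continuous w := wt_cont _ _
  set En : ℝ → ℝ := fun t => ‖EES P B0 r F s T t‖ with hEn
  have hEc : Continuous En := (EES_cont P B0 r F s T).norm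
  set Z : ℝ → ℝ := fun t => Zs A (c + 2 * η) T t with hZ
  have hZc : Continuous Z := Zs_cont A (c + 2 * η) T hTone hgc
  have hZ0 : ∀ t, 0 ≤ Z t := fun t => Zs_nonneg A (c + 2 * η) T t hTone hg0
  set d := X / L with hd
  have hd0 : 0 < d := by positivity
  have hd1 : 6 * k * d ≤ 1 := by
    rw [hd, mul_div_assoc', div_le_one hL0]; exact hLX
  -- the index set
  have hfin : {n : ℕ | 1 ≤ n ∧ |ord n - t0| ≤ (M + 1) * Δ ∧
      2 * Real.pi * (c + η) / L < ord (n + k) - ord n}.Finite :=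
    (idx_finite t0 ((M + 1) * Δ)).subset (fun n hn => ⟨hn.1, hn.2.1⟩)
  set N := hfin.toFinset with hN
  have hcard : {n : ℕ | 1 ≤ n ∧ |ord n - t0| ≤ (M + 1) * Δ ∧
      2 * Real.pi * (c + η) / L < ord (n + k) - ord n}.ncard = N.card :=
    Set.ncard_eq_toFinset_card _ hfin
  rw [hcard]
  set N' := N.filter (fun n => ord (n + k) - ord n ≤ 6 * k * d) with hN'
  have hN'm : ∀ n ∈ N', 1 ≤ n ∧ ord (n + k) - ord n ≤ 6 * k * d := by
    intro n hn
    rw [hN', Finset.mem_filter, hN, Set.Finite.mem_toFinset] at hn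
    exact ⟨hn.1.1, hn.2⟩
  set S : ℝ → ℝ := fun t => ∑ n ∈ N',
    (Set.Icc (ord n) (ord (n + k))).indicator (fun _ => (1 : ℝ)) t with hSdef
  have hSn : ∀ t, 0 ≤ S t := fun t =>
    Finset.sum_nonneg (fun n _ => Set.indicator_nonneg (fun _ _ => zero_le_one) t)
  have hSi : ∀ n ∈ N', IntervalIntegrable (fun t => (Set.Icc (ord n)
      (ord (n + k))).indicator (fun _ => (1 : ℝ)) t) volume V1 V2 := fun n hn =>
    (ind_int (ord n) (ord (n + k)) V1 V2 (SG.ord_mono (hN'm n hn).1 (by omega)) hV).1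
  have iS : IntervalIntegrable S volume V1 V2 := by
    have h1 := IntervalIntegrable.sum N' hSi
    have h2 : (∑ n ∈ N', (fun t => (Set.Icc (ord n)
      (ord (n + k))).indicator (fun _ => (1 : ℝ)) t)) = S := by
      funext t
      rw [Finset.sum_apply]
    rw [← h2]
    exact h1
  have I4 : ∫ t in V1..V2, S t ≤ N.card * (6 * k * d) := by
    rw [hSdef, intervalIntegral.integral_finsetSum hSi]
    calc _ ≤ ∑ n ∈ N', (6 * k * d) := by
          apply Finset.sum_le_sum
          intro n hn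
          exact ((ind_int (ord n) (ord (n + k)) V1 V2 (SG.ord_mono (hN'm n hn).1 (by omega)) hV).2).trans
            (hN'm n hn).2
      _ = N'.card * (6 * k * d) := by rw [Finset.sum_const, nsmul_eq_mul]
      _ ≤ N.card * (6 * k * d) := by
          have : (N'.card : ℝ) ≤ N.card := by exact_mod_cast Finset.card_filter_le _ _
          exact mul_le_mul_of_nonneg_right this (by positivity)
  -- the sum of the shifted majorants
  set GG : ℝ → ℝ := fun t => ∑ j ∈ Finset.range k,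
    (w t * G (t + (3 * j + 1) * d) + w t * G (t + -((3 * j + 1) * d))) with hGG
  have hGGt : ∀ t, ∀ j ∈ Finset.range k,
      0 ≤ w t * G (t + (3 * j + 1) * d) + w t * G (t + -((3 * j + 1) * d)) := fun t j _ =>
    add_nonneg (mul_nonneg (hw0 t) (hGn _)) (mul_nonneg (hw0 t) (hGn _))
  have hGGn : ∀ t, 0 ≤ GG t := fun t => Finset.sum_nonneg (hGGt t)
  have hGGc : Continuous GG := by
    rw [hGG]
    apply continuous_finsetSum
    intro j _
    exact (hwc.mul (hGc.comp (continuous_id.add continuous_const))).add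
      (hwc.mul (hGc.comp (continuous_id.add continuous_const)))
  have hshift : ∀ j ∈ Finset.range k, 0 < (3 * (j : ℝ) + 1) * d ∧ (3 * (j : ℝ) + 1) * d ≤ L := by
    intro j hj
    have hj1 : (j : ℝ) + 1 ≤ k := by exact_mod_cast Finset.mem_range.mp hj
    constructor
    · positivity
    · have : (3 * (j : ℝ) + 1) * d ≤ (6 * k) * d :=
        mul_le_mul_of_nonneg_right (by linarith) hd0.le
      linarith
  -- pointwise bound
  have hpt : ∀ t ∈ Set.Icc V1 V2, k * (w t * En t ^ 2) - g * (w t * En t ^ 2 * Z t) ≤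
      e * (w t * En t ^ 4) + k ^ 2 / (4 * e) * S t + k ^ 2 / (4 * e) * GG t +
      k ^ 2 / (4 * e) * Real.exp (-M ^ 2 / 4) * wt t0 (2 * Δ) t := by
    intro t ht
    have htV1 : T + 2 * L ≤ t := ht.1
    have htV2 : t ≤ 2 * T - 2 * L := ht.2
    have hE0 : 0 ≤ Real.exp (-M ^ 2 / 4) * wt t0 (2 * Δ) t :=
      mul_nonneg (Real.exp_pos _).le (wt_nonneg _ _ _)
    set b1 : ℝ := if NZ (t + R / L) < NZ (t - R / L) + k then 1 else 0 with hb1
    have hb10 : 0 ≤ b1 := by rw [hb1]; split_ifs <;> norm_num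
    have hdich : (k : ℝ) ≤ g * Z t ∨ 1 ≤ b1 := by
      by_cases hno : NZ (t + R / L) < NZ (t - R / L) + k
      · right
        rw [hb1, if_pos hno]
      · left
        push Not at hno
        have a1 := hzT t (by linarith) (by linarith)
        have a2 : (k : ℝ) ≤ NN (R / L) t := by
          unfold NN
          have : ((NZ (t - R / L) + k : ℕ) : ℝ) ≤ (NZ (t + R / L) : ℕ) := by exact_mod_cast hno
          push_cast at this
          linarith
        have a3 : g * (1 - 2 * e1) = 1 := by rw [hgdef]; field_simp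
        have a4 : (1 - 2 * e1) * (k : ℝ) ≤ Z t :=
          (mul_le_mul_of_nonneg_left a2 hg1.le).trans a1
        calc (k : ℝ) = g * ((1 - 2 * e1) * k) := by rw [← mul_assoc, a3, one_mul]
          _ ≤ g * Z t := mul_le_mul_of_nonneg_left a4 hgpos.le
    have h1 := pointwise3 (E := En t) (g := g) (Z := Z t) (k := (k : ℝ)) he0 hgpos.le (hZ0 t)
      hb10 hk0.le hdich
    have h2 := mul_le_mul_of_nonneg_left h1 (hw0 t)
    have h3 : w t * b1 ≤ S t + GG t + Real.exp (-M ^ 2 / 4) * wt t0 (2 * Δ) t := by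
      by_cases hno : NZ (t + R / L) < NZ (t - R / L) + k
      · have hb : b1 = 1 := by rw [hb1, if_pos hno]
        rw [hb, mul_one]
        have hRL : 0 < R / L := by positivity
        have hRL1 : R / L ≤ 1 := by rw [div_le_one hL0]; exact hLR2
        have hNt : 1 ≤ NZ (t - R / L) := hTN _ (by linarith)
        obtain ⟨g1, g2, g3, g4⟩ := h5 T t (R / L) d k hTone hk hRL hd0 (by linarith) hNt hno
        set n := NZ (t - R / L) with hn
        rcases g4 with g4 | ⟨j, hj, g4⟩ | ⟨j, hj, g4⟩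
        · by_cases hn0 : |ord n - t0| ≤ (M + 1) * Δ
          · have hnN : n ∈ N' := by
              rw [hN', Finset.mem_filter, hN, Set.Finite.mem_toFinset]
              refine ⟨⟨hNt, hn0, ?_⟩, g4⟩
              have : 2 * Real.pi * (c + η) / L = 2 * (R / L) := by rw [hR]; ring
              rw [this]
              exact g1
            have h7 : (1 : ℝ) ≤ S t := by
              have h8 : (Set.Icc (ord n) (ord (n + k))).indicator
                  (fun _ => (1 : ℝ)) t = 1 := by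
                apply Set.indicator_of_mem
                exact ⟨g2, g3⟩
              rw [← h8]
              exact Finset.single_le_sum (f := fun n =>
                (Set.Icc (ord n) (ord (n + k))).indicator (fun _ => (1 : ℝ)) t)
                (fun n _ => Set.indicator_nonneg (fun _ _ => zero_le_one) t) hnN
            linarith [hw1 t, hGGn t]
          · push Not at hn0
            have h7 : M * Δ ≤ |t - t0| := by
              have h8 : |ord n - t0| ≤ |ord n - t| + |t - t0| := by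
                have := abs_add_le (ord n - t) (t - t0)
                simpa using this
              have h9 : |ord n - t| ≤ Δ := by
                rw [abs_of_nonpos (by linarith)]
                linarith
              nlinarith
            have := wt_tail t0 Δ t M hΔ0 hM0 h7
            linarith [hSn t, hGGn t]
        · have hjm : j ∈ Finset.range k := Finset.mem_range.mpr hj
          obtain ⟨s1, s2⟩ := hshift j hjm
          have h8 := hGone (t + (3 * j + 1) * d) (by linarith) (by linarith) g4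
          have h9 : w t ≤ w t * G (t + (3 * j + 1) * d) := le_mul_of_one_le_right (hw0 t) h8
          have h10 : w t * G (t + (3 * j + 1) * d) + w t * G (t + -((3 * j + 1) * d)) ≤ GG t :=
            Finset.single_le_sum (f := fun j : ℕ =>
              w t * G (t + (3 * j + 1) * d) + w t * G (t + -((3 * j + 1) * d))) (hGGt t) hjm
          have h11 : 0 ≤ w t * G (t + -((3 * j + 1) * d)) := mul_nonneg (hw0 t) (hGn _)
          linarith [hSn t]
        · have hjm : j ∈ Finset.range k := Finset.mem_range.mpr hj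
          obtain ⟨s1, s2⟩ := hshift j hjm
          have h8 := hGone (t + -((3 * j + 1) * d)) (by linarith) (by linarith) (by
            intro z hz
            have := g4 z hz
            rwa [sub_eq_add_neg t] at this)
          have h9 : w t ≤ w t * G (t + -((3 * j + 1) * d)) := le_mul_of_one_le_right (hw0 t) h8
          have h10 : w t * G (t + (3 * j + 1) * d) + w t * G (t + -((3 * j + 1) * d)) ≤ GG t :=
            Finset.single_le_sum (f := fun j : ℕ =>
              w t * G (t + (3 * j + 1) * d) + w t * G (t + -((3 * j + 1) * d))) (hGGt t) hjm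
          have h11 : 0 ≤ w t * G (t + (3 * j + 1) * d) := mul_nonneg (hw0 t) (hGn _)
          linarith [hSn t]
      · have hb : b1 = 0 := by rw [hb1, if_neg hno]
        rw [hb, mul_zero]
        linarith [hSn t, hGGn t]
    have h4 : k ^ 2 / (4 * e) * (w t * b1) ≤ k ^ 2 / (4 * e) * (S t + GG t +
        Real.exp (-M ^ 2 / 4) * wt t0 (2 * Δ) t) :=
      mul_le_mul_of_nonneg_left h3 (by positivity)
    have e3 : k * (w t * En t ^ 2) - g * (w t * En t ^ 2 * Z t) =
        w t * (En t ^ 2 * (k - g * Z t)) := by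
      ring
    rw [e3]
    refine h2.trans ?_
    have e4 : w t * (e * En t ^ 4 + k ^ 2 / (4 * e) * b1) =
        e * (w t * En t ^ 4) + k ^ 2 / (4 * e) * (w t * b1) := by ring
    rw [e4]
    linarith
  -- integrability
  have i0 : IntervalIntegrable (fun t => w t * En t ^ 2) volume V1 V2 :=
    (hwc.mul (hEc.pow 2)).intervalIntegrable _ _
  have i0' : IntervalIntegrable (fun t => w t * En t ^ 2 * Z t) volume V1 V2 :=
    ((hwc.mul (hEc.pow 2)).mul hZc).intervalIntegrable _ _
  have i2 : IntervalIntegrable (fun t => w t * En t ^ 4) volume V1 V2 :=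
    (hwc.mul (hEc.pow 4)).intervalIntegrable _ _
  have i5 : IntervalIntegrable (fun t => wt t0 (2 * Δ) t) volume V1 V2 :=
    (wt_cont _ _).intervalIntegrable _ _
  have iGG : IntervalIntegrable GG volume V1 V2 := hGGc.intervalIntegrable _ _
  have iG : ∀ x : ℝ, IntervalIntegrable (fun t => w t * G (t + x)) volume V1 V2 := fun x =>
    (hwc.mul (hGc.comp (continuous_id.add continuous_const))).intervalIntegrable _ _
  -- the integrals
  have I5 : ∫ t in V1..V2, wt t0 (2 * Δ) t ≤ 6 * Δ := by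
    have h1 := wt_int t0 (2 * Δ) V1 V2 (by positivity) hV
    have h2 : Real.sqrt (2 * Real.pi) * (2 * Δ) ≤ 3 * (2 * Δ) :=
      mul_le_mul_of_nonneg_right sqrt_two_pi_le (by positivity)
    linarith
  have IG : ∀ x : ℝ, |x| ≤ L → ∫ t in V1..V2, w t * G (t + x) ≤ ρ * e / (2 * k ^ 3) * Δ := by
    intro x hx
    rw [hw, int_shift]
    rw [abs_le] at hx
    exact hGint (t0 + x) (V1 + x) (V2 + x) (by linarith) (by linarith) (by linarith)
  have IGG : ∫ t in V1..V2, GG t ≤ ρ * e / k ^ 2 * Δ := by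
    rw [hGG, intervalIntegral.integral_finsetSum (fun j _ => (iG _).add (iG _))]
    calc _ ≤ ∑ j ∈ Finset.range k, (ρ * e / k ^ 3 * Δ) := by
          apply Finset.sum_le_sum
          intro j hj
          obtain ⟨s1, s2⟩ := hshift j hj
          rw [intervalIntegral.integral_add (iG _) (iG _)]
          have a1 := IG ((3 * j + 1) * d) (by rw [abs_of_pos s1]; exact s2)
          have a2 := IG (-((3 * j + 1) * d)) (by rw [abs_neg, abs_of_pos s1]; exact s2)
          have a3 : ρ * e / k ^ 3 * Δ = ρ * e / (2 * k ^ 3) * Δ + ρ * e / (2 * k ^ 3) * Δ := by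
            field_simp
            ring
          rw [a3]
          exact add_le_add a1 a2
      _ = k * (ρ * e / k ^ 3 * Δ) := by rw [Finset.sum_const, Finset.card_range, nsmul_eq_mul]
      _ = ρ * e / k ^ 2 * Δ := by field_simp
  have hint := intervalIntegral.integral_mono_on hV ((i0.const_mul (k : ℝ)).sub (i0'.const_mul g))
    ((((i2.const_mul e).add (iS.const_mul (k ^ 2 / (4 * e)))).add
      (iGG.const_mul (k ^ 2 / (4 * e)))).add
      (i5.const_mul (k ^ 2 / (4 * e) * Real.exp (-M ^ 2 / 4)))) hpt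
  rw [intervalIntegral.integral_sub (i0.const_mul (k : ℝ)) (i0'.const_mul g),
    intervalIntegral.integral_add
    (((i2.const_mul e).add (iS.const_mul (k ^ 2 / (4 * e)))).add
      (iGG.const_mul (k ^ 2 / (4 * e))))
      (i5.const_mul (k ^ 2 / (4 * e) * Real.exp (-M ^ 2 / 4))),
    intervalIntegral.integral_add
    ((i2.const_mul e).add (iS.const_mul (k ^ 2 / (4 * e)))) (iGG.const_mul (k ^ 2 / (4 * e))),
    intervalIntegral.integral_add (i2.const_mul e) (iS.const_mul (k ^ 2 / (4 * e))),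
    intervalIntegral.integral_const_mul, intervalIntegral.integral_const_mul,
    intervalIntegral.integral_const_mul, intervalIntegral.integral_const_mul,
    intervalIntegral.integral_const_mul, intervalIntegral.integral_const_mul] at hint
  have hlow2 : ρ * Δ ≤ k * (∫ t in V1..V2, w t * En t ^ 2) -
      g * ∫ t in V1..V2, w t * En t ^ 2 * Z t := hlowT
  have J2 := mul_le_mul_of_nonneg_left hmomT he0.le
  have J4 := mul_le_mul_of_nonneg_left I4 (by positivity : 0 ≤ k ^ 2 / (4 * e))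
  have JG := mul_le_mul_of_nonneg_left IGG (by positivity : 0 ≤ k ^ 2 / (4 * e))
  have J5 := mul_le_mul_of_nonneg_left I5
    (by positivity : 0 ≤ k ^ 2 / (4 * e) * Real.exp (-M ^ 2 / 4))
  have K5 : k ^ 2 / (4 * e) * Real.exp (-M ^ 2 / 4) * (6 * Δ) ≤ ρ / 4 * Δ := by
    calc k ^ 2 / (4 * e) * Real.exp (-M ^ 2 / 4) * (6 * Δ) ≤
        k ^ 2 / (4 * e) * (ρ * e / (6 * k ^ 2)) * (6 * Δ) := by gcongr
      _ = ρ / 4 * Δ := by field_simp
  have KG : k ^ 2 / (4 * e) * (ρ * e / k ^ 2 * Δ) = ρ / 4 * Δ := by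
    field_simp
  have K2 : e * (C4 * Δ) = ρ / 4 * Δ := by rw [← mul_assoc, heC]
  rw [KG] at JG
  rw [K2] at J2
  have K : ρ / 4 * Δ ≤ k ^ 2 / (4 * e) * (N.card * (6 * k * d)) := by linarith
  have e5 : k ^ 2 / (4 * e) * (N.card * (6 * k * d)) = N.card * (6 * k ^ 3 * X) / (4 * e * L) := by
    rw [hd]
    field_simp
  rw [e5, le_div_iff₀ (by positivity)] at K
  have e6 : ρ * e / (6 * k ^ 3 * X) * Δ * L = (ρ / 4 * Δ * (4 * e * L)) / (6 * k ^ 3 * X) := by
    field_simp
  rw [e6, div_le_iff₀ (by positivity)]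
  exact K

end RGap
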